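import Pool.Agent.H703R2.Desc.Halve

namespace Pool.Agent.H703R2.Desc

theorem odd_odd {a d w : ℤ} (hcad : IsCoprime a d)
    (h : w ^ 2 + 2 * a ^ 2 * d ^ 2 = 5 * a ^ 4 + 13 * d ^ 4) : Odd a ∧ Odd d := by
  have sq8 : ∀ t : ℤ, t ^ 2 % 8 = 0 ∨ t ^ 2 % 8 = 1 ∨ t ^ 2 % 8 = 4 := by
    intro t
    have : t % 8 = 0 ∨ t % 8 = 1 ∨ t % 8 = 2 ∨ t % 8 = 3 ∨ t % 8 = 4 ∨ t % 8 = 5 ∨ t % 8 = 6 ∨
      t % 8 = 7 := by omega
    rcases this with h | h | h | h | h | h | h | h <;> simp [pow_two, Int.mul_emod, h]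
  have odd4 : ∀ t : ℤ, Odd t → t ^ 4 % 8 = 1 := by
    rintro t ⟨u, rfl⟩
    have : (2 * u + 1) ^ 4 = 8 * (2 * u ^ 4 + 4 * u ^ 3 + 3 * u ^ 2 + u) + 1 := by ring
    rw [this]; omega
  rcases Int.even_or_odd a with hae | hao <;> rcases Int.even_or_odd d with hde | hdo
  · exfalso
    exact not_both hcad Nat.prime_two (by exact_mod_cast hae.two_dvd) (by exact_mod_cast hde.two_dvd)
  · exfalso
    have h1 := odd4 d hdo
    obtain ⟨b, hb⟩ := hae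
    have hb' : a = 2 * b := by omega
    have e1 : 5 * a ^ 4 = 8 * (10 * b ^ 4) := by rw [hb']; ring
    have e2 : 2 * a ^ 2 * d ^ 2 = 8 * (b ^ 2 * d ^ 2) := by rw [hb']; ring
    rw [e1, e2] at h
    rcases sq8 w with h2 | h2 | h2 <;> omega
  · exfalso
    have h1 := odd4 a hao
    obtain ⟨b, hb⟩ := hde
    have hb' : d = 2 * b := by omega
    have e1 : 13 * d ^ 4 = 8 * (26 * b ^ 4) := by rw [hb']; ring
    have e2 : 2 * a ^ 2 * d ^ 2 = 8 * (a ^ 2 * b ^ 2) := by rw [hb']; ring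
    rw [e1, e2] at h
    rcases sq8 w with h2 | h2 | h2 <;> omega
  · exact ⟨hao, hdo⟩

theorem bezout3 {x y z : ℤ} (h : ∀ p : ℕ, p.Prime → (p : ℤ) ∣ x → (p : ℤ) ∣ y → (p : ℤ) ∣ z → False) :
    ∃ u v t : ℤ, u * x + v * y + t * z = 1 := by
  have h1 : IsCoprime ((Int.gcd x y : ℕ) : ℤ) z := by
    apply coprime_of_prime
    intro p hp p1 p2
    have p3 : p ∣ Int.gcd x y := by exact_mod_cast p1
    refine h p hp ?_ ?_ p2
    · exact (Int.natCast_dvd_natCast.2 p3).trans (Int.gcd_dvd_left ..)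
    · exact (Int.natCast_dvd_natCast.2 p3).trans (Int.gcd_dvd_right ..)
  obtain ⟨m, n, hmn⟩ := h1
  have h2 := Int.gcd_eq_gcd_ab x y
  refine ⟨m * Int.gcdA x y, m * Int.gcdB x y, n, ?_⟩
  rw [← hmn, h2]; ring

theorem trans_height {a d p q r s M : ℤ} (ha : 0 < a) (hd : 0 < d) (hao : Odd a) (hdo : Odd d)
    (hne : a ≠ d) (hp : 0 < p) (hq : 0 < q) (hr : 0 < r) (hs : 0 < s)
    (hpq : IsCoprime p q) (hrs : IsCoprime r s) (haM : a ≤ M) (hdM : d ≤ M)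
    (h1 : p ^ 2 * r ^ 2 * (a ^ 2 - d ^ 2) ^ 2 = q ^ 2 * s ^ 2 * (5 * a ^ 2 - 13 * d ^ 2) ^ 2)
    (h2 : (p ^ 2 * s ^ 2 + r ^ 2 * q ^ 2) * (a ^ 2 - d ^ 2) ^ 2 =
      2 * (5 * a ^ 4 + 14 * a ^ 2 * d ^ 2 + 13 * d ^ 4) * (q ^ 2 * s ^ 2)) :
    (8 * p ^ 2 ≤ 13 * M ^ 2 ∧ 8 * q ^ 2 ≤ 13 * M ^ 2) ∨
      (8 * r ^ 2 ≤ 13 * M ^ 2 ∧ 8 * s ^ 2 ≤ 13 * M ^ 2) := by
  set α := (a ^ 2 - d ^ 2) ^ 2 with hα
  set β := 2 * (5 * a ^ 4 + 14 * a ^ 2 * d ^ 2 + 13 * d ^ 4) with hβ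
  set γ := (5 * a ^ 2 - 13 * d ^ 2) ^ 2 with hγ
  set N1 := q ^ 2 * s ^ 2 with hN1
  set N2 := p ^ 2 * s ^ 2 + r ^ 2 * q ^ 2 with hN2
  set N3 := p ^ 2 * r ^ 2 with hN3
  have hN10 : 0 < N1 := by positivity
  have hN20 : 0 < N2 := by positivity
  have hN30 : 0 < N3 := by positivity
  have hα0 : 0 < α := by
    have : a ^ 2 - d ^ 2 ≠ 0 := by
      intro h
      have : (a - d) * (a + d) = 0 := by linarith
      rcases mul_eq_zero.1 this with h | h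
      · exact hne (by linarith)
      · linarith
    positivity
  obtain ⟨x, y, z, hxyz⟩ : ∃ x y z : ℤ, x * N1 + y * N2 + z * N3 = 1 := by
    apply bezout3
    intro l hl l1 l2 l3
    have hll : Prime (l : ℤ) := Nat.prime_iff_prime_int.1 hl
    rw [hN1] at l1
    rcases hll.dvd_or_dvd l1 with l4 | l4
    · have l5 : (l : ℤ) ∣ q := hll.dvd_of_dvd_pow l4
      have l6 : (l : ℤ) ∣ p ^ 2 * s ^ 2 := by
        have : p ^ 2 * s ^ 2 = N2 - q * (q * r ^ 2) := by rw [hN2]; ring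
        rw [this]; exact dvd_sub l2 (Dvd.dvd.mul_right l5 _)
      rcases hll.dvd_or_dvd l6 with l7 | l7
      · exact not_both hpq hl (hll.dvd_of_dvd_pow l7) l5
      · have l8 : (l : ℤ) ∣ s := hll.dvd_of_dvd_pow l7
        rcases hll.dvd_or_dvd l3 with l9 | l9
        · exact not_both hpq hl (hll.dvd_of_dvd_pow l9) l5
        · exact not_both hrs hl (hll.dvd_of_dvd_pow l9) l8
    · have l5 : (l : ℤ) ∣ s := hll.dvd_of_dvd_pow l4
      have l6 : (l : ℤ) ∣ r ^ 2 * q ^ 2 := by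
        have : r ^ 2 * q ^ 2 = N2 - s * (s * p ^ 2) := by rw [hN2]; ring
        rw [this]; exact dvd_sub l2 (Dvd.dvd.mul_right l5 _)
      rcases hll.dvd_or_dvd l6 with l7 | l7
      · exact not_both hrs hl (hll.dvd_of_dvd_pow l7) l5
      · have l8 : (l : ℤ) ∣ q := hll.dvd_of_dvd_pow l7
        rcases hll.dvd_or_dvd l3 with l9 | l9
        · exact not_both hpq hl (hll.dvd_of_dvd_pow l9) l8
        · exact not_both hrs hl (hll.dvd_of_dvd_pow l9) l5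
  -- divisibility by 64
  obtain ⟨a', ha'⟩ := hao
  obtain ⟨d', hd'⟩ := hdo
  obtain ⟨a1, ha1⟩ := Int.even_mul_succ_self a'
  obtain ⟨d1, hd1⟩ := Int.even_mul_succ_self d'
  have ea : a ^ 2 = 8 * a1 + 1 := by
    have e1 : a ^ 2 = 4 * (a' * (a' + 1)) + 1 := by rw [ha']; ring
    rw [e1, ha1]; ring
  have ed : d ^ 2 = 8 * d1 + 1 := by
    have e1 : d ^ 2 = 4 * (d' * (d' + 1)) + 1 := by rw [hd']; ring
    rw [e1, hd1]; ring
  have dα : (64 : ℤ) ∣ α := ⟨(a1 - d1) ^ 2, by rw [hα, ea, ed]; ring⟩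
  have dγ : (64 : ℤ) ∣ γ := ⟨(5 * a1 - 13 * d1 - 1) ^ 2, by rw [hγ, ea, ed]; ring⟩
  have dβ : (64 : ℤ) ∣ β := by
    refine ⟨10 * a1 ^ 2 + 28 * a1 * d1 + 26 * d1 ^ 2 + 6 * a1 + 10 * d1 + 1, ?_⟩
    have e1 : a ^ 4 = (a ^ 2) ^ 2 := by ring
    have e2 : d ^ 4 = (d ^ 2) ^ 2 := by ring
    rw [hβ, e1, e2, ea, ed]; ring
  set lam := x * α + y * β + z * γ with hlam
  have dlam : (64 : ℤ) ∣ lam := by
    rw [hlam]
    exact dvd_add (dvd_add (Dvd.dvd.mul_left dα _) (Dvd.dvd.mul_left dβ _)) (Dvd.dvd.mul_left dγ _)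
  have e1 : α = N1 * lam := by
    calc α = α * (x * N1 + y * N2 + z * N3) := by rw [hxyz, mul_one]
      _ = x * α * N1 + y * (N2 * α) + z * (N3 * α) := by ring
      _ = N1 * lam := by rw [h1, h2, hlam]; ring
  have hlam0 : 0 < lam := by
    rw [e1] at hα0
    exact (mul_pos_iff_of_pos_left hN10).1 hα0
  have hlam64 : 64 ≤ lam := Int.le_of_dvd hlam0 dlam
  have e2 : β = N2 * lam := by
    have : N1 * β = N1 * (N2 * lam) := by
      calc N1 * β = N2 * α := by rw [h2]; ring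
        _ = _ := by rw [e1]; ring
    exact mul_left_cancel₀ hN10.ne' this
  have e3 : γ = N3 * lam := by
    have : N1 * γ = N1 * (N3 * lam) := by
      calc N1 * γ = N3 * α := by rw [h1]
        _ = _ := by rw [e1]; ring
    exact mul_left_cancel₀ hN10.ne' this
  have hM : 0 < M := lt_of_lt_of_le ha haM
  have ea2 : a ^ 2 ≤ M ^ 2 := pow_le_pow_left₀ ha.le haM 2
  have ed2 : d ^ 2 ≤ M ^ 2 := pow_le_pow_left₀ hd.le hdM 2
  have ha2 : 0 < a ^ 2 := by positivity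
  have hd2 : 0 < d ^ 2 := by positivity
  have hM2 : 0 < M ^ 2 := by positivity
  have b1 : α ≤ M ^ 2 * M ^ 2 := by
    have : α ≤ (M ^ 2) ^ 2 := by
      rw [hα]; apply sq_le_sq'
      · linarith
      · linarith
    linarith
  have b3 : γ ≤ 169 * (M ^ 2 * M ^ 2) := by
    have : γ ≤ (13 * M ^ 2) ^ 2 := by
      rw [hγ]; apply sq_le_sq'
      · linarith
      · linarith
    linarith
  have b2 : β ≤ 64 * (M ^ 2 * M ^ 2) := by
    have c1 : a ^ 4 ≤ M ^ 2 * M ^ 2 := by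
      have : a ^ 4 = a ^ 2 * a ^ 2 := by ring
      rw [this]; exact mul_le_mul ea2 ea2 ha2.le hM2.le
    have c2 : d ^ 4 ≤ M ^ 2 * M ^ 2 := by
      have : d ^ 4 = d ^ 2 * d ^ 2 := by ring
      rw [this]; exact mul_le_mul ed2 ed2 hd2.le hM2.le
    have c3 : a ^ 2 * d ^ 2 ≤ M ^ 2 * M ^ 2 := mul_le_mul ea2 ed2 hd2.le hM2.le
    have c4 : β = 10 * a ^ 4 + 28 * (a ^ 2 * d ^ 2) + 26 * d ^ 4 := by rw [hβ]; ring
    rw [c4]; linarith
  have g1 : 64 * N1 ≤ M ^ 2 * M ^ 2 := by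
    have : N1 * 64 ≤ N1 * lam := mul_le_mul_of_nonneg_left hlam64 hN10.le
    linarith
  have g2 : N2 ≤ M ^ 2 * M ^ 2 := by
    have : N2 * 64 ≤ N2 * lam := mul_le_mul_of_nonneg_left hlam64 hN20.le
    linarith
  have g3 : 64 * N3 ≤ 169 * (M ^ 2 * M ^ 2) := by
    have : N3 * 64 ≤ N3 * lam := mul_le_mul_of_nonneg_left hlam64 hN30.le
    linarith
  by_contra hcon
  push Not at hcon
  obtain ⟨hc1, hc2⟩ := hcon
  have hp2 : 0 < p ^ 2 := by positivity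
  have hq2 : 0 < q ^ 2 := by positivity
  have hr2 : 0 < r ^ 2 := by positivity
  have hs2 : 0 < s ^ 2 := by positivity
  have hMM : 0 < M ^ 2 * M ^ 2 := by positivity
  have prod : ∀ u v : ℤ, 13 * M ^ 2 < 8 * u → 13 * M ^ 2 < 8 * v →
      169 * (M ^ 2 * M ^ 2) < 64 * (u * v) := by
    intro u v hu hv
    have : (13 * M ^ 2) * (13 * M ^ 2) < (8 * u) * (8 * v) :=
      mul_lt_mul'' hu hv (by positivity) (by positivity)
    linarith
  have hps : 0 < p ^ 2 * s ^ 2 := by positivity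
  have hrq : 0 < r ^ 2 * q ^ 2 := by positivity
  by_cases hp' : 8 * p ^ 2 ≤ 13 * M ^ 2
  · have hq' := hc1 hp'
    by_cases hr' : 8 * r ^ 2 ≤ 13 * M ^ 2
    · have hs' := hc2 hr'
      have := prod _ _ hq' hs'
      linarith
    · push Not at hr'
      have := prod _ _ hr' hq'
      linarith
  · push Not at hp'
    by_cases hr' : 8 * r ^ 2 ≤ 13 * M ^ 2
    · have hs' := hc2 hr'
      have := prod _ _ hp' hs'
      linarith
    · push Not at hr'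
      have := prod _ _ hp' hr'
      linarith

end Pool.Agent.H703R2.Desc
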