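import Mathlib

namespace Pool.Agent.H703R2.Desc

theorem coprime_of_prime {x y : ℤ} (h : ∀ p : ℕ, p.Prime → (p : ℤ) ∣ x → (p : ℤ) ∣ y → False) :
    IsCoprime x y := by
  rw [Int.isCoprime_iff_gcd_eq_one, Int.gcd_eq_natAbs]
  apply Nat.coprime_of_dvd
  intro p hp h1 h2
  exact h p hp (Int.natCast_dvd.2 h1) (Int.natCast_dvd.2 h2)

theorem not_both {x y : ℤ} (h : IsCoprime x y) {p : ℕ} (hp : p.Prime) (h1 : (p : ℤ) ∣ x)
    (h2 : (p : ℤ) ∣ y) : False := by
  have h3 : (p : ℤ) ∣ 1 := by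
    obtain ⟨u, v, huv⟩ := h
    rw [← huv]
    exact dvd_add (Dvd.dvd.mul_left h1 u) (Dvd.dvd.mul_left h2 v)
  have h4 : p ∣ 1 := by exact_mod_cast h3
  exact hp.one_lt.ne' (Nat.dvd_one.1 h4)

theorem pow_fac {x y s : ℤ} (hx : 0 < x) (hy : 0 < y) (hs : 0 < s) (hc : IsCoprime x y)
    (h : x * y = s ^ 4) : ∃ A B : ℤ, 0 < A ∧ 0 < B ∧ x = A ^ 4 ∧ y = B ^ 4 ∧ A * B = s ∧
      IsCoprime A B := by
  lift x to ℕ using hx.le
  lift y to ℕ using hy.le
  lift s to ℕ using hs.le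
  have hx' : 0 < x := by exact_mod_cast hx
  have hy' : 0 < y := by exact_mod_cast hy
  have h' : x * y = s ^ 4 := by exact_mod_cast h
  have hc' : Nat.Coprime x y := Nat.isCoprime_iff_coprime.1 hc
  obtain ⟨A, hA⟩ := exists_eq_pow_of_mul_eq_pow (a := x) (b := y) (c := s) (k := 4)
    (by rw [Nat.isUnit_iff]; exact hc') h'
  obtain ⟨B, hB⟩ := exists_eq_pow_of_mul_eq_pow (a := y) (b := x) (c := s) (k := 4)
    (by rw [Nat.isUnit_iff]; exact hc'.symm) (by rw [mul_comm]; exact h')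
  have hA0 : 0 < A := by
    rcases Nat.eq_zero_or_pos A with h0 | h0
    · subst h0; simp at hA; omega
    · exact h0
  have hB0 : 0 < B := by
    rcases Nat.eq_zero_or_pos B with h0 | h0
    · subst h0; simp at hB; omega
    · exact h0
  have hAB : A * B = s := by
    have : (A * B) ^ 4 = s ^ 4 := by rw [mul_pow, ← hA, ← hB, h']
    exact Nat.pow_left_injective (by norm_num) this
  refine ⟨A, B, by exact_mod_cast hA0, by exact_mod_cast hB0, by exact_mod_cast hA,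
    by exact_mod_cast hB, by exact_mod_cast hAB, ?_⟩
  rw [Nat.isCoprime_iff_coprime]
  rw [hA, hB] at hc'
  exact Nat.Coprime.coprime_dvd_left (dvd_pow_self A (by norm_num))
    (Nat.Coprime.coprime_dvd_right (dvd_pow_self B (by norm_num)) hc')

theorem fac65 {x y s : ℤ} (hx : 0 < x) (hy : 0 < y) (hs : 0 < s) (hc : IsCoprime x y)
    (h : x * y = 65 * s ^ 4) : ∃ k1 k2 A B : ℤ, (k1 = 1 ∧ k2 = 65 ∨ k1 = 5 ∧ k2 = 13 ∨
      k1 = 13 ∧ k2 = 5 ∨ k1 = 65 ∧ k2 = 1) ∧ 0 < A ∧ 0 < B ∧ x = k1 * A ^ 4 ∧ y = k2 * B ^ 4 ∧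
      A * B = s ∧ IsCoprime A B := by
  have key : ∀ k1 k2 : ℤ, 0 < k1 → 0 < k2 → k1 * k2 = 65 → k1 ∣ x → k2 ∣ y →
      ∃ A B : ℤ, 0 < A ∧ 0 < B ∧ x = k1 * A ^ 4 ∧ y = k2 * B ^ 4 ∧ A * B = s ∧ IsCoprime A B := by
    rintro k1 k2 hk1 hk2 hk ⟨x', rfl⟩ ⟨y', rfl⟩
    have hx' : 0 < x' := (mul_pos_iff_of_pos_left hk1).1 hx
    have hy' : 0 < y' := (mul_pos_iff_of_pos_left hk2).1 hy
    have h1 : x' * y' = s ^ 4 := by
      have : 65 * (x' * y') = 65 * s ^ 4 := by rw [← h, ← hk]; ring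
      exact mul_left_cancel₀ (by norm_num) this
    have hc' : IsCoprime x' y' := (IsCoprime.of_mul_left_right (IsCoprime.of_mul_right_right hc))
    obtain ⟨A, B, hA, hB, e1, e2, e3, e4⟩ := pow_fac hx' hy' hs hc' h1
    exact ⟨A, B, hA, hB, by rw [e1], by rw [e2], e3, e4⟩
  have h5 : (5 : ℤ) ∣ x * y := ⟨13 * s ^ 4, by rw [h]; ring⟩
  have h13 : (13 : ℤ) ∣ x * y := ⟨5 * s ^ 4, by rw [h]; ring⟩
  have p5 : Prime (5 : ℤ) := Int.prime_iff_natAbs_prime.2 (by norm_num)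
  have p13 : Prime (13 : ℤ) := Int.prime_iff_natAbs_prime.2 (by norm_num)
  have hcop : IsCoprime (5 : ℤ) 13 := ⟨-5, 2, by norm_num⟩
  rcases p5.dvd_or_dvd h5 with a5 | a5 <;> rcases p13.dvd_or_dvd h13 with a13 | a13
  · obtain ⟨A, B, hh⟩ := key 65 1 (by norm_num) (by norm_num) (by norm_num)
      (by simpa using hcop.mul_dvd a5 a13) (one_dvd _)
    exact ⟨65, 1, A, B, by simp, hh⟩
  · obtain ⟨A, B, hh⟩ := key 5 13 (by norm_num) (by norm_num) (by norm_num) a5 a13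
    exact ⟨5, 13, A, B, by simp, hh⟩
  · obtain ⟨A, B, hh⟩ := key 13 5 (by norm_num) (by norm_num) (by norm_num) a13 a5
    exact ⟨13, 5, A, B, by simp, hh⟩
  · obtain ⟨A, B, hh⟩ := key 1 65 (by norm_num) (by norm_num) (by norm_num) (one_dvd _)
      (by simpa using hcop.mul_dvd a5 a13)
    exact ⟨1, 65, A, B, by simp, hh⟩

/-- a prime dividing both factors of `65 s⁴` divides `s` -/
theorem dvd_s_of_both {x y s : ℤ} (h : x * y = 65 * s ^ 4) {p : ℕ} (hp : p.Prime)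
    (h1 : (p : ℤ) ∣ x) (h2 : (p : ℤ) ∣ y) : (p : ℤ) ∣ s := by
  have hpp : Prime (p : ℤ) := Nat.prime_iff_prime_int.1 hp
  have h3 : (p : ℤ) * p ∣ 65 * s ^ 4 := by rw [← h]; exact mul_dvd_mul h1 h2
  by_contra hs
  have hs4 : ¬ (p : ℤ) ∣ s ^ 4 := fun h => hs (hpp.dvd_of_dvd_pow h)
  have hcs : IsCoprime ((p : ℤ) * p) (s ^ 4) := by
    have : IsCoprime (p : ℤ) (s ^ 4) := (Prime.coprime_iff_not_dvd hpp).2 hs4
    exact this.mul_left this
  have h4 : (p : ℤ) * p ∣ 65 := hcs.dvd_of_dvd_mul_right h3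
  have h5 : p * p ∣ 65 := by exact_mod_cast h4
  have h6 : p ≤ 8 := by
    have := Nat.le_of_dvd (by norm_num) h5
    nlinarith
  have h7 := hp.two_le
  interval_cases p <;> revert h5 <;> decide

/-- second halving step, `s` odd or `s` even -/
theorem step2 {a d r s e : ℤ} (ha : 0 < a) (hr : 0 < r) (hs : 0 < s)
    (hcad : IsCoprime a d) (hc : IsCoprime r s) (he : e = 1 ∨ e = 2) (hed : e * d = r * s)
    (h : (e * a) ^ 2 + 4 * s ^ 4 = 4 * r ^ 4 + r ^ 2 * s ^ 2) :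
    ∃ k k' A B v c : ℤ, (k = 1 ∧ k' = 65 ∨ k = 5 ∧ k' = 13) ∧ 0 < A ∧ 0 < B ∧ 0 < v ∧
      IsCoprime A B ∧ v ^ 2 + 2 * A ^ 2 * B ^ 2 = k * A ^ 4 + k' * B ^ 4 ∧
      (c = 1 ∨ c = 8 ∨ c = 16) ∧ 2 * A * B * v = c * d ∧
      (k * A ^ 4 - k' * B ^ 4 = c * a ∨ k' * B ^ 4 - k * A ^ 4 = c * a) := by
  have he0 : 0 < e := by rcases he with h | h <;> omega
  -- reduction: from a factorisation
  have fin : ∀ x y t v c : ℤ, 0 < x → 0 < y → 0 < t → 0 < v → IsCoprime x y → x * y = 65 * t ^ 4 →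
      v ^ 2 + 2 * t ^ 2 = x + y → (c = 1 ∨ c = 8 ∨ c = 16) → 2 * t * v = c * d →
      x - y = c * a → ∃ k k' A B v c : ℤ, (k = 1 ∧ k' = 65 ∨ k = 5 ∧ k' = 13) ∧ 0 < A ∧ 0 < B ∧
        0 < v ∧ IsCoprime A B ∧ v ^ 2 + 2 * A ^ 2 * B ^ 2 = k * A ^ 4 + k' * B ^ 4 ∧
        (c = 1 ∨ c = 8 ∨ c = 16) ∧ 2 * A * B * v = c * d ∧
        (k * A ^ 4 - k' * B ^ 4 = c * a ∨ k' * B ^ 4 - k * A ^ 4 = c * a) := by
    intro x y t v c hx hy ht hv hcop hxy hsum hc3 hcd hdiff
    obtain ⟨k1, k2, A, B, hk, hA, hB, e1, e2, e3, e4⟩ := fac65 hx hy ht hcop hxy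
    have hAB : t ^ 2 = A ^ 2 * B ^ 2 := by rw [← e3]; ring
    rcases hk with ⟨rfl, rfl⟩ | ⟨rfl, rfl⟩ | ⟨rfl, rfl⟩ | ⟨rfl, rfl⟩
    · exact ⟨1, 65, A, B, v, c, by simp, hA, hB, hv, e4, by rw [← e1, ← e2, ← hsum, hAB]; ring, hc3,
        by rw [← hcd, ← e3]; ring, Or.inl (by rw [← e1, ← e2, hdiff])⟩
    · exact ⟨5, 13, A, B, v, c, by simp, hA, hB, hv, e4, by rw [← e1, ← e2, ← hsum, hAB]; ring, hc3,
        by rw [← hcd, ← e3]; ring, Or.inl (by rw [← e1, ← e2, hdiff])⟩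
    · exact ⟨5, 13, B, A, v, c, by simp, hB, hA, hv, e4.symm,
        by rw [← e1, ← e2, add_comm y x, ← hsum, hAB]; ring, hc3,
        by rw [← hcd, ← e3]; ring, Or.inr (by rw [← e1, ← e2, hdiff])⟩
    · exact ⟨1, 65, B, A, v, c, by simp, hB, hA, hv, e4.symm,
        by rw [← e1, ← e2, add_comm y x, ← hsum, hAB]; ring, hc3,
        by rw [← hcd, ← e3]; ring, Or.inr (by rw [← e1, ← e2, hdiff])⟩
  rcases Int.even_or_odd s with hse | hso
  · -- s even
    have hro : Odd r := by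
      rcases Int.even_or_odd r with hre | hro
      · exfalso
        exact not_both hc Nat.prime_two (by exact_mod_cast hre.two_dvd) (by exact_mod_cast hse.two_dvd)
      · exact hro
    obtain ⟨s1, hs1⟩ := hse
    have hs1' : s = 2 * s1 := by omega
    subst hs1'
    have he2 : e = 2 := by
      rcases he with rfl | rfl
      · exfalso
        have h1 : (2 : ℤ) ∣ d := ⟨r * s1, by rw [one_mul] at hed; rw [hed]; ring⟩
        have h2 : (2 : ℤ) ∣ a ^ 2 := by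
          refine ⟨2 * r ^ 4 + 2 * r ^ 2 * s1 ^ 2 - 32 * s1 ^ 4, ?_⟩
          rw [one_mul] at h
          nlinarith
        have h3 : (2 : ℤ) ∣ a := Int.prime_two.dvd_of_dvd_pow h2
        exact not_both hcad Nat.prime_two (by exact_mod_cast h3) (by exact_mod_cast h1)
      · rfl
    subst he2
    have hd1 : d = r * s1 := by
      have : 2 * d = 2 * (r * s1) := by rw [hed]; ring
      exact mul_left_cancel₀ two_ne_zero this
    have h1 : a ^ 2 = r ^ 4 + r ^ 2 * s1 ^ 2 - 16 * s1 ^ 4 := by nlinarith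
    have hs10 : 0 < s1 := by omega
    rcases Int.even_or_odd s1 with hse1 | hso1
    · obtain ⟨s2, hs2⟩ := hse1
      have hs2' : s1 = 2 * s2 := by omega
      subst hs2'
      have hs20 : 0 < s2 := by omega
      have hao : Odd a := by
        rcases Int.even_or_odd a with hae | hao
        · exfalso
          obtain ⟨a', ha'⟩ := hae
          obtain ⟨r', hr'⟩ := hro
          have h2 : (a' + a') ^ 2 = (2 * r' + 1) ^ 4 + (2 * r' + 1) ^ 2 * (2 * s2) ^ 2 -
            16 * (2 * s2) ^ 4 := by rw [← ha', ← hr']; exact h1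
          have h3 : (a' + a') ^ 2 % 2 = 0 := by
            have : (a' + a') ^ 2 = 2 * (2 * a' ^ 2) := by ring
            rw [this]; simp
          have h4 : ((2 * r' + 1) ^ 4 + (2 * r' + 1) ^ 2 * (2 * s2) ^ 2 - 16 * (2 * s2) ^ 4) % 2 = 1 := by
            have : (2 * r' + 1) ^ 4 + (2 * r' + 1) ^ 2 * (2 * s2) ^ 2 - 16 * (2 * s2) ^ 4 =
              2 * (8 * r' ^ 4 + 16 * r' ^ 3 + 12 * r' ^ 2 + 4 * r' + (2 * r' + 1) ^ 2 * (2 * s2 ^ 2) -
                128 * s2 ^ 4) + 1 := by ring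
            rw [this]; omega
          rw [h2] at h3; omega
        · exact hao
      obtain ⟨a', ha'⟩ := hao
      obtain ⟨r', hr'⟩ := hro
      -- x = (r² + 2 s2² + a)/2, y = (r² + 2 s2² - a)/2
      set x := 2 * r' ^ 2 + 2 * r' + 1 + s2 ^ 2 * 2 * 1 - s2 ^ 2 + a' with hx
      set y := 2 * r' ^ 2 + 2 * r' + s2 ^ 2 - a' with hy
      have e1 : 2 * x = r ^ 2 + 2 * s2 ^ 2 + a := by rw [hx, hr', ha']; ring
      have e2 : 2 * y = r ^ 2 + 2 * s2 ^ 2 - a := by rw [hy, hr', ha']; ring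
      have hxy : x * y = 65 * s2 ^ 4 := by
        have : 4 * (x * y) = 4 * (65 * s2 ^ 4) := by
          calc 4 * (x * y) = (2 * x) * (2 * y) := by ring
            _ = (r ^ 2 + 2 * s2 ^ 2) ^ 2 - a ^ 2 := by rw [e1, e2]; ring
            _ = _ := by rw [h1]; ring
        exact mul_left_cancel₀ (by norm_num) this
      have hx0 : 0 < x := by nlinarith [sq_nonneg s2, pow_pos hr 2]
      have hy0 : 0 < y := by
        have : 0 < x * y := by rw [hxy]; positivity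
        exact (mul_pos_iff_of_pos_left hx0).1 this
      have hcxy : IsCoprime x y := by
        apply coprime_of_prime
        intro p hp p1 p2
        have hpp : Prime (p : ℤ) := Nat.prime_iff_prime_int.1 hp
        have p3 := dvd_s_of_both hxy hp p1 p2
        have p4 : (p : ℤ) ∣ r ^ 2 := by
          have : r ^ 2 = x + y - s2 * (2 * s2) := by linarith
          rw [this]
          exact dvd_sub (dvd_add p1 p2) (Dvd.dvd.mul_right p3 _)
        exact not_both hc hp (hpp.dvd_of_dvd_pow p4) (Dvd.dvd.mul_left (Dvd.dvd.mul_left p3 2) 2)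
      refine fin x y s2 r 1 hx0 hy0 hs20 hr hcxy hxy (by linarith) (Or.inl rfl) ?_ (by linarith)
      rw [hd1]; ring
    · exfalso
      -- mod 8
      obtain ⟨s', hs'⟩ := hso1
      obtain ⟨r', hr'⟩ := hro
      have h2 : a ^ 2 % 4 = 2 := by
        rw [h1, hs', hr']
        have : (2 * r' + 1) ^ 4 + (2 * r' + 1) ^ 2 * (2 * s' + 1) ^ 2 - 16 * (2 * s' + 1) ^ 4 =
          4 * (4 * r' ^ 4 + 8 * r' ^ 3 + 6 * r' ^ 2 + 2 * r' +
            (r' ^ 2 + r') * (2 * s' + 1) ^ 2 + (s' ^ 2 + s') - 4 * (2 * s' + 1) ^ 4) + 2 := by ring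
        rw [this]; omega
      rcases Int.even_or_odd a with ⟨b, hb⟩ | ⟨b, hb⟩
      · have : a ^ 2 = 4 * b ^ 2 := by rw [hb]; ring
        omega
      · have : a ^ 2 = 4 * (b ^ 2 + b) + 1 := by rw [hb]; ring
        omega
  · -- s odd
    set x := 8 * r ^ 2 + s ^ 2 + 4 * (e * a) with hx
    set y := 8 * r ^ 2 + s ^ 2 - 4 * (e * a) with hy
    have hxy : x * y = 65 * s ^ 4 := by
      rw [hx, hy]
      have : (e * a) ^ 2 = 4 * r ^ 4 + r ^ 2 * s ^ 2 - 4 * s ^ 4 := by linarith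
      calc _ = (8 * r ^ 2 + s ^ 2) ^ 2 - 16 * (e * a) ^ 2 := by ring
        _ = _ := by rw [this]; ring
    have hea : 0 < e * a := mul_pos he0 ha
    have hx0 : 0 < x := by positivity
    have hy0 : 0 < y := by
      have : 0 < x * y := by rw [hxy]; positivity
      exact (mul_pos_iff_of_pos_left hx0).1 this
    have hcxy : IsCoprime x y := by
      apply coprime_of_prime
      intro p hp p1 p2
      have hpp : Prime (p : ℤ) := Nat.prime_iff_prime_int.1 hp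
      have p3 := dvd_s_of_both hxy hp p1 p2
      have p4 : (p : ℤ) ∣ 2 ^ 4 * r ^ 2 := by
        have : 2 ^ 4 * r ^ 2 = x + y - s * (2 * s) := by rw [hx, hy]; ring
        rw [this]
        exact dvd_sub (dvd_add p1 p2) (Dvd.dvd.mul_right p3 _)
      rcases hpp.dvd_or_dvd p4 with p5 | p5
      · have p6 : (p : ℤ) ∣ 2 := hpp.dvd_of_dvd_pow p5
        have p7 : p ∣ 2 := by exact_mod_cast p6
        have p8 : p = 2 := (Nat.prime_dvd_prime_iff_eq hp Nat.prime_two).1 p7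
        subst p8
        obtain ⟨t, ht⟩ := hso
        obtain ⟨t2, ht2⟩ := p3
        push_cast at ht2
        omega
      · exact not_both hc hp (hpp.dvd_of_dvd_pow p5) p3
    refine fin x y s (4 * r) (8 * e) hx0 hy0 hs (by positivity) hcxy hxy ?_ ?_ ?_ ?_
    · rw [hx, hy]; ring
    · rcases he with rfl | rfl
      · right; left; norm_num
      · right; right; norm_num
    · calc 2 * s * (4 * r) = 8 * (r * s) := by ring
        _ = 8 * e * d := by rw [← hed]; ring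
    · rw [hx, hy]; ring

/-- first halving step -/
theorem step1 {a d w : ℤ} (hd : 0 < d) (hw : 0 < w) (hcad : IsCoprime a d)
    (h : w ^ 2 + 2 * a ^ 2 * d ^ 2 = a ^ 4 + 65 * d ^ 4) :
    ∃ r s e : ℤ, 0 < r ∧ 0 < s ∧ IsCoprime r s ∧ (e = 1 ∨ e = 2) ∧ e * d = r * s ∧
      (e * a) ^ 2 + 4 * s ^ 4 = 4 * r ^ 4 + r ^ 2 * s ^ 2 := by
  have hd4 : 0 < d ^ 4 := by positivity
  have h1 : w ^ 2 = (a ^ 2 - d ^ 2) ^ 2 + 64 * d ^ 4 := by linarith
  -- opposite parities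
  have opp : Odd (a ^ 2 - d ^ 2) → ∃ r s e : ℤ, 0 < r ∧ 0 < s ∧ IsCoprime r s ∧ (e = 1 ∨ e = 2) ∧
      e * d = r * s ∧ (e * a) ^ 2 + 4 * s ^ 4 = 4 * r ^ 4 + r ^ 2 * s ^ 2 := by
    intro huo
    have hwo : Odd w := by
      rcases Int.even_or_odd w with hwe | hwo
      · exfalso
        have h2 : Odd (w ^ 2) := by
          rw [h1]
          exact huo.pow.add_even ⟨32 * d ^ 4, by ring⟩
        exact (Int.not_even_iff_odd.2 h2) (hwe.pow_of_ne_zero two_ne_zero)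
      · exact hwo
    obtain ⟨w', hw'⟩ := hwo
    obtain ⟨u', hu'⟩ := huo
    set x := w' + u' + 1 with hx
    set y := w' - u' with hy
    have e1 : 2 * x = w + (a ^ 2 - d ^ 2) := by rw [hx, hw', hu']; ring
    have e2 : 2 * y = w - (a ^ 2 - d ^ 2) := by rw [hy, hw', hu']; ring
    have hxy : x * y = (2 * d) ^ 4 := by
      have : 4 * (x * y) = 4 * (2 * d) ^ 4 := by
        calc 4 * (x * y) = (2 * x) * (2 * y) := by ring
          _ = w ^ 2 - (a ^ 2 - d ^ 2) ^ 2 := by rw [e1, e2]; ring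
          _ = _ := by rw [h1]; ring
      exact mul_left_cancel₀ (by norm_num) this
    have hxy0 : 0 < x * y := by rw [hxy]; positivity
    have hsum : x + y = w := by linarith
    have hx0 : 0 < x := by
      rcases lt_or_ge 0 x with h0 | h0
      · exact h0
      · have : y < 0 := by
          by_contra hy0
          push Not at hy0
          nlinarith
        linarith
    have hy0 : 0 < y := (mul_pos_iff_of_pos_left hx0).1 hxy0
    have hcxy : IsCoprime x y := by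
      apply coprime_of_prime
      intro p hp p1 p2
      have hpp : Prime (p : ℤ) := Nat.prime_iff_prime_int.1 hp
      have p3 : (p : ℤ) ∣ 2 * d := hpp.dvd_of_dvd_pow (n := 4) (by rw [← hxy]; exact Dvd.dvd.mul_right p1 _)
      have p4 : (p : ℤ) ∣ w := by rw [← hsum]; exact dvd_add p1 p2
      have p5 : (p : ℤ) ∣ d := by
        rcases hpp.dvd_or_dvd p3 with p6 | p6
        · exfalso
          have p7 : p ∣ 2 := by exact_mod_cast p6
          have p8 : p = 2 := (Nat.prime_dvd_prime_iff_eq hp Nat.prime_two).1 p7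
          subst p8
          obtain ⟨t, ht⟩ := p4
          push_cast at ht
          omega
        · exact p6
      have p6 : (p : ℤ) ∣ a ^ 2 := by
        have : a ^ 2 = x - y + d * d := by
          have : x - y = a ^ 2 - d ^ 2 := by linarith
          rw [this]; ring
        rw [this]
        exact dvd_add (dvd_sub p1 p2) (Dvd.dvd.mul_right p5 _)
      exact not_both hcad hp (hpp.dvd_of_dvd_pow p6) p5
    obtain ⟨r, s, hr, hs, e3, e4, e5, e6⟩ := pow_fac hx0 hy0 (by linarith : 0 < 2 * d) hcxy hxy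
    refine ⟨r, s, 2, hr, hs, e6, Or.inr rfl, e5.symm, ?_⟩
    have h3 : a ^ 2 = r ^ 4 - s ^ 4 + d ^ 2 := by
      rw [← e3, ← e4]; linarith
    have h4 : r ^ 2 * s ^ 2 = 4 * d ^ 2 := by
      calc r ^ 2 * s ^ 2 = (r * s) ^ 2 := by ring
        _ = _ := by rw [e5]; ring
    rw [h4, mul_pow, h3]; ring
  rcases Int.even_or_odd a with hae | hao <;> rcases Int.even_or_odd d with hde | hdo
  · exfalso
    exact not_both hcad Nat.prime_two (by exact_mod_cast hae.two_dvd) (by exact_mod_cast hde.two_dvd)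
  · exact opp ((hae.pow_of_ne_zero two_ne_zero).sub_odd hdo.pow)
  · exact opp (hao.pow.sub_even (hde.pow_of_ne_zero two_ne_zero))
  · obtain ⟨a', ha'⟩ := hao
    obtain ⟨d', hd'⟩ := hdo
    obtain ⟨a1, ha1⟩ := Int.even_mul_succ_self a'
    obtain ⟨d1, hd1⟩ := Int.even_mul_succ_self d'
    set u := a1 - d1 with hu
    have hu8 : a ^ 2 - d ^ 2 = 8 * u := by
      have e1 : a ^ 2 = 4 * (a' * (a' + 1)) + 1 := by rw [ha']; ring
      have e2 : d ^ 2 = 4 * (d' * (d' + 1)) + 1 := by rw [hd']; ring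
      rw [e1, e2, ha1, hd1, hu]; ring
    have hw8 : (8 : ℤ) ∣ w := by
      have h2 : (8 : ℤ) ^ 2 ∣ w ^ 2 := ⟨u ^ 2 + d ^ 4, by rw [h1, hu8]; ring⟩
      exact (Int.pow_dvd_pow_iff two_ne_zero).1 h2
    obtain ⟨w', hw'⟩ := hw8
    have hw'0 : 0 < w' := by omega
    have h2 : w' ^ 2 = u ^ 2 + d ^ 4 := by
      have : 64 * w' ^ 2 = 64 * (u ^ 2 + d ^ 4) := by
        calc 64 * w' ^ 2 = w ^ 2 := by rw [hw']; ring
          _ = _ := by rw [h1, hu8]; ring
      exact mul_left_cancel₀ (by norm_num) this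
    set x := w' + u with hx
    set y := w' - u with hy
    have hxy : x * y = d ^ 4 := by
      calc x * y = w' ^ 2 - u ^ 2 := by rw [hx, hy]; ring
        _ = _ := by rw [h2]; ring
    have hxy0 : 0 < x * y := by rw [hxy]; positivity
    have hsum : x + y = 2 * w' := by rw [hx, hy]; ring
    have hx0 : 0 < x := by
      rcases lt_or_ge 0 x with h0 | h0
      · exact h0
      · have : y < 0 := by
          by_contra hy0
          push Not at hy0
          nlinarith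
        linarith
    have hy0 : 0 < y := (mul_pos_iff_of_pos_left hx0).1 hxy0
    have hcxy : IsCoprime x y := by
      apply coprime_of_prime
      intro p hp p1 p2
      have hpp : Prime (p : ℤ) := Nat.prime_iff_prime_int.1 hp
      have p3 : (p : ℤ) ∣ d := hpp.dvd_of_dvd_pow (n := 4) (by rw [← hxy]; exact Dvd.dvd.mul_right p1 _)
      have p4 : (p : ℤ) ∣ 2 * u := by
        have : 2 * u = x - y := by rw [hx, hy]; ring
        rw [this]; exact dvd_sub p1 p2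
      have p5 : (p : ℤ) ∣ u := by
        rcases hpp.dvd_or_dvd p4 with p6 | p6
        · exfalso
          have p7 : p ∣ 2 := by exact_mod_cast p6
          have p8 : p = 2 := (Nat.prime_dvd_prime_iff_eq hp Nat.prime_two).1 p7
          subst p8
          obtain ⟨t, ht⟩ := p3
          push_cast at ht
          omega
        · exact p6
      have p6 : (p : ℤ) ∣ a ^ 2 := by
        have : a ^ 2 = u * 8 + d * d := by linarith
        rw [this]
        exact dvd_add (Dvd.dvd.mul_right p5 _) (Dvd.dvd.mul_right p3 _)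
      exact not_both hcad hp (hpp.dvd_of_dvd_pow p6) p3
    obtain ⟨r, s, hr, hs, e3, e4, e5, e6⟩ := pow_fac hx0 hy0 hd hcxy hxy
    refine ⟨r, s, 1, hr, hs, e6, Or.inl rfl, by rw [one_mul, e5], ?_⟩
    have h3 : a ^ 2 = 4 * (r ^ 4 - s ^ 4) + d ^ 2 := by
      rw [← e3, ← e4, hx, hy]; linarith
    have h4 : r ^ 2 * s ^ 2 = d ^ 2 := by
      calc r ^ 2 * s ^ 2 = (r * s) ^ 2 := by ring
        _ = _ := by rw [e5]
    rw [h4, one_mul, h3]; ring

/-- **Halving**: descent for `w² = a⁴ - 2a²d² + 65d⁴`. -/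
theorem halve {a d w : ℤ} (ha : 0 < a) (hd : 0 < d) (hw : 0 < w) (hcad : IsCoprime a d)
    (h : w ^ 2 + 2 * a ^ 2 * d ^ 2 = a ^ 4 + 65 * d ^ 4) :
    ∃ k k' A B v c : ℤ, (k = 1 ∧ k' = 65 ∨ k = 5 ∧ k' = 13) ∧ 0 < A ∧ 0 < B ∧ 0 < v ∧
      IsCoprime A B ∧ v ^ 2 + 2 * A ^ 2 * B ^ 2 = k * A ^ 4 + k' * B ^ 4 ∧
      (c = 1 ∨ c = 8 ∨ c = 16) ∧ 2 * A * B * v = c * d ∧
      (k * A ^ 4 - k' * B ^ 4 = c * a ∨ k' * B ^ 4 - k * A ^ 4 = c * a) := by
  obtain ⟨r, s, e, hr, hs, hc, he, hed, h2⟩ := step1 hd hw hcad h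
  exact step2 ha hr hs hcad hc he hed h2

/-- height bound for the halving step -/
theorem halve_height {a d k k' A B v c M : ℤ} (ha : 0 < a) (hd : 0 < d)
    (hk : k = 1 ∧ k' = 65 ∨ k = 5 ∧ k' = 13) (hA : 0 < A) (hB : 0 < B)
    (h : v ^ 2 + 2 * A ^ 2 * B ^ 2 = k * A ^ 4 + k' * B ^ 4) (hc : c = 1 ∨ c = 8 ∨ c = 16)
    (h1 : 2 * A * B * v = c * d)
    (h2 : k * A ^ 4 - k' * B ^ 4 = c * a ∨ k' * B ^ 4 - k * A ^ 4 = c * a)
    (haM : a ≤ M) (hdM : d ≤ M) : A ^ 4 ≤ 36 * M ∧ B ^ 4 ≤ 36 * M := by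
  have hA4 : 0 < A ^ 4 := by positivity
  have hB4 : 0 < B ^ 4 := by positivity
  have hAS : A ^ 4 ≤ k * A ^ 4 + k' * B ^ 4 := by
    rcases hk with ⟨rfl, rfl⟩ | ⟨rfl, rfl⟩ <;> linarith
  have hBS : B ^ 4 ≤ k * A ^ 4 + k' * B ^ 4 := by
    rcases hk with ⟨rfl, rfl⟩ | ⟨rfl, rfl⟩ <;> linarith
  set S := k * A ^ 4 + k' * B ^ 4 with hS
  set P := A ^ 2 * B ^ 2 with hP
  have hkk : k * k' = 65 := by rcases hk with ⟨rfl, rfl⟩ | ⟨rfl, rfl⟩ <;> norm_num
  have hP0 : 0 < P := by positivity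
  have hk0 : 0 < k := by rcases hk with ⟨rfl, rfl⟩ | ⟨rfl, rfl⟩ <;> norm_num
  have hk'0 : 0 < k' := by rcases hk with ⟨rfl, rfl⟩ | ⟨rfl, rfl⟩ <;> norm_num
  have hS0 : 0 < S := by positivity
  have hM : 0 < M := lt_of_lt_of_le ha haM
  have hc0 : 0 < c := by rcases hc with rfl | rfl | rfl <;> norm_num
  have hc16 : c ≤ 16 := by rcases hc with rfl | rfl | rfl <;> norm_num
  have e1 : (c * a) ^ 2 = S ^ 2 - 260 * P ^ 2 := by
    have : (k * A ^ 4 - k' * B ^ 4) ^ 2 = S ^ 2 - 260 * P ^ 2 := by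
      rw [hS, hP]
      have : (260 : ℤ) = 4 * (k * k') := by rw [hkk]; norm_num
      rw [this]; ring
    rcases h2 with h2 | h2
    · rw [← h2, this]
    · rw [← h2, ← this]; ring
  have e2 : (c * d) ^ 2 = 4 * P * S - 8 * P ^ 2 := by
    rw [← h1, hP]
    have : v ^ 2 = S - 2 * A ^ 2 * B ^ 2 := by linarith
    calc (2 * A * B * v) ^ 2 = 4 * (A ^ 2 * B ^ 2) * v ^ 2 := by ring
      _ = _ := by rw [this]; ring
  have e3 : 260 * P ^ 2 ≤ S ^ 2 := by nlinarith [sq_nonneg (c * a)]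
  have hca : c * a ≤ 16 * M := by nlinarith
  have hcd : c * d ≤ 16 * M := by nlinarith
  have hca0 : 0 < c * a := mul_pos hc0 ha
  have hcd0 : 0 < c * d := mul_pos hc0 hd
  -- `4 S ≤ 9 * 16 M`
  have hmain : S ≤ 36 * M := by
    by_contra hcon
    push Not at hcon
    have h3 : (c * a) ^ 2 ≤ (16 * M) ^ 2 := pow_le_pow_left₀ hca0.le hca 2
    have h4 : (c * d) ^ 2 ≤ (16 * M) ^ 2 := pow_le_pow_left₀ hcd0.le hcd 2
    have h5 : 81 * (16 * M) ^ 2 < 16 * S ^ 2 := by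
      have : (36 * M) ^ 2 < S ^ 2 := pow_lt_pow_left₀ hcon (by linarith) two_ne_zero
      have e4 : (36 * M) ^ 2 = 1296 * M ^ 2 := by ring
      have e5 : 81 * (16 * M) ^ 2 = 20736 * M ^ 2 := by ring
      rw [e4] at this
      rw [e5]
      linarith
    have h6 : 81 * (S ^ 2 - 260 * P ^ 2) < 16 * S ^ 2 := by rw [← e1]; linarith
    have h7 : 81 * (4 * P * S - 8 * P ^ 2) < 16 * S ^ 2 := by rw [← e2]; linarith
    have h8 : S < 18 * P := by
      apply lt_of_pow_lt_pow_left₀ 2 (by linarith)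
      have : (18 * P) ^ 2 = 324 * P ^ 2 := by ring
      rw [this]; linarith
    have h9 : 16 * P ≤ S := by
      rw [← pow_le_pow_iff_left₀ (by linarith) hS0.le two_ne_zero]
      have : (16 * P) ^ 2 = 256 * P ^ 2 := by ring
      rw [this]
      have hP2 : 0 < P ^ 2 := by positivity
      linarith
    have h10 : 0 < (4 * S - 9 * P) * (18 * P - S) := mul_pos (by linarith) (by linarith)
    have h11 : (4 * S - 9 * P) * (18 * P - S) = 81 * (P * S) - 4 * S ^ 2 - 162 * P ^ 2 := by ring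
    rw [h11] at h10
    have h12 : 81 * (4 * P * S - 8 * P ^ 2) = 324 * (P * S) - 648 * P ^ 2 := by ring
    rw [h12] at h7
    linarith
  exact ⟨hAS.trans hmain, hBS.trans hmain⟩

end Pool.Agent.H703R2.Desc
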